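import Pool.Agent.H799R2.Grid

set_option autoImplicit false

/-!
Question Q2: the `L₁` distortion of the space of uniform `s`-point measures on the grid
`{1,…,Δ}^d`, with the Wasserstein-1 distance for the `ℓ₁` or the `ℓ₂` metric of the grid, is
bounded by a function of `s` alone.

Idea of the proof.  Represent the ground metric by a weighted family of cuts (exactly for `ℓ₁`, up
to absolute constants for `ℓ₂`, by Khintchine's inequality).  For a configuration `X` let `R(X)` be
the weight of the cuts separating `X`.  Define recursively `F(X)` as the sum of the points of `X`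
together with, for each cut `k` separating `X` and with the factor `w_k / R(X)`, the relative
position of the two parts of `X` and the non-linear parts of `F` of the two parts.  Then `F` is
biLipschitz for the matching metric, with constants depending only on the number of points.
-/

open MeasureTheory Finset
open scoped ENNReal

namespace Pool.Agent.Results.MP_12e089_an.BoundedBySize

/-- The grid `{1,…,Δ}^d`, with the coordinates shifted to `{0,…,Δ-1}`. -/
abbrev Grid (Δ d : ℕ) := Fin d → Fin Δ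

/-- The `ℓ₁` metric of the grid. -/
def dist1 {Δ d : ℕ} (x y : Grid Δ d) : ℝ := ∑ i, |((x i : ℕ) : ℝ) - ((y i : ℕ) : ℝ)|

/-- The `ℓ₂` metric of the grid. -/
noncomputable def dist2 {Δ d : ℕ} (x y : Grid Δ d) : ℝ :=
  Real.sqrt (∑ i, (((x i : ℕ) : ℝ) - ((y i : ℕ) : ℝ)) ^ 2)

/-- `π` is a coupling of the measures `μ` and `ν` on the finite set `M`. -/
def IsCoupling {M : Type} [Fintype M] (μ ν : M → ℝ) (π : M → M → ℝ) : Prop :=
  (∀ x y, 0 ≤ π x y) ∧ (∀ x, ∑ y, π x y = μ x) ∧ ∀ y, ∑ x, π x y = ν y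

/-- The Wasserstein-1 distance of `μ` and `ν` for the ground distance `ρ`. -/
noncomputable def W1 {M : Type} [Fintype M] (ρ : M → M → ℝ) (μ ν : M → ℝ) : ℝ :=
  sInf {t : ℝ | ∃ π : M → M → ℝ, IsCoupling μ ν π ∧ t = ∑ x, ∑ y, π x y * ρ x y}

/-- The uniform probability measure on the points of `S`. -/
noncomputable def unif {M : Type} [DecidableEq M] (S : Finset M) : M → ℝ :=
  fun x => if x ∈ S then 1 / (S.card : ℝ) else 0

/-- The index set of `Y(Δ,d,s)`: subsets of the grid with exactly `s` points. -/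
abbrev Y (Δ d s : ℕ) := {S : Finset (Grid Δ d) // S.card = s}

/-- The distance of `Y(Δ,d,s)`: the Wasserstein-1 distance of the uniform measures. -/
noncomputable def distY {Δ d s : ℕ} (ρ : Grid Δ d → Grid Δ d → ℝ) (S T : Y Δ d s) : ℝ :=
  W1 ρ (unif S.1) (unif T.1)

/-- The space with the distance function `δ` embeds into `L₁([0,1])` with distortion `D`. -/
def EmbedsL1 {X : Type} (δ : X → X → ℝ) (D : ℝ) : Prop :=
  ∃ (f : X → Lp ℝ 1 (volume.restrict (Set.Icc (0 : ℝ) 1))) (r : ℝ), 0 < r ∧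
    ∀ x y, r * δ x y ≤ ‖f x - f y‖ ∧ ‖f x - f y‖ ≤ D * r * δ x y

/-- The `L₁` distortion `c₁`: the infimum of the `D ≥ 1` for which there is an embedding with
distortion `D` (and `∞` if there is none). -/
noncomputable def c1 {X : Type} (δ : X → X → ℝ) : ℝ≥0∞ :=
  ⨅ (D : ℝ) (_ : 1 ≤ D ∧ EmbedsL1 δ D), ENNReal.ofReal D

/-- **Main theorem.**  There is a function `f` of `s` alone with `c₁(Y(Δ,d,s)) ≤ f(s)` for all
`Δ ≥ 2`, `d ≥ 1` and `1 ≤ s ≤ Δ^d`, both for the `ℓ₁` and for the `ℓ₂` metric on the grid. -/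
theorem result : ∃ f : ℕ → ℝ, ∀ Δ d s : ℕ, 2 ≤ Δ → 1 ≤ d → 1 ≤ s → s ≤ Δ ^ d →
    c1 (distY (Δ := Δ) (d := d) (s := s) dist1) ≤ ENNReal.ofReal (f s) ∧
    c1 (distY (Δ := Δ) (d := d) (s := s) dist2) ≤ ENNReal.ofReal (f s) := by
  choose f hf1 hf using Pool.Agent.H799R2.Grid.final
  refine ⟨f, fun Δ d s _ _ hs _ => ?_⟩
  obtain ⟨h1, h2⟩ := hf s Δ d hs
  exact ⟨iInf₂_le (f s) ⟨hf1 s, h1⟩, iInf₂_le (f s) ⟨hf1 s, h2⟩⟩

end Pool.Agent.Results.MP_12e089_an.BoundedBySize
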